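import Pool.Agent.MP_649b0b_mp.H34.Data

/-!
Verification of the certificate.
-/

namespace Pool.Agent.MP_649b0b_mp.H34

def alt : ℤ → List ℤ → List ℤ
  | _, [] => []
  | ε, a :: l => ε * a :: alt (-ε) l

def ext (ε : ℤ) (r : List ℤ) : List ℤ := r ++ alt ε r.reverse

def A : List ℤ := ext 1 A0

def cs : List (List ℤ) :=
  (half1.map fun r => ext 1 (List.zipWith (· * ·) dl r)) ++
    half2.map fun r => ext (-1) (List.zipWith (· * ·) dl r)

def mk (d : ℕ × ℤ × ℕ × ℕ) : List Tm :=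
  let s := d.2.1 * (-1) ^ (d.2.2.1 + d.2.2.2 + 1)
  if d.1 = 0 then [(1, c59, 0, 0), (1, c59, 60, 60)]
  else if d.1 = 1 then [(1, c51, d.2.2.1, 60 + d.2.2.2), (s, c51, 8 - d.2.2.2, 60 + (8 - d.2.2.1))]
  else [(1, c51, d.2.2.1, d.2.2.2), (-1, c51, 60 + d.2.2.1, 60 + d.2.2.2),
    (s, c51, 8 - d.2.2.1, 8 - d.2.2.2), (-s, c51, 60 + (8 - d.2.2.1), 60 + (8 - d.2.2.2))]

def es (k : ℕ) : List Tm := mk (descs.getD k (0, 0, 0, 0))

lemma chk_ok : chk es A cs (2 ^ 273) (2 ^ 350) := by decide +kernel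

lemma bd_ok : ∀ k < 118, bd (es k) ≤ 2 ^ 61 := by decide +kernel

lemma cs_ok : cs.all fun c => c.all fun a => |a| ≤ 1024 * 2 ^ 74 := by decide +kernel

lemma A_ok : [A].all fun c => c.all fun a => |a| ≤ 1 * 2 ^ 200 := by decide +kernel

lemma res_ok : ∀ k < 57, |qZ A A (es k) - if k = 0 then 4 * 2 ^ 400 else 0| ≤ 2 ^ 301 := by
  decide +kernel

lemma len_ok : cs.length = 117 ∧ descs.length = 117 ∧ A.length = 120 ∧
    ∀ j < 117, (cs.getD j []).length = 120 := by decide +kernel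

def kr (c : List ℤ) : Bool :=
  fL c fun c => (List.range 60).all fun i => c.getD (60 + i) 0 = (-1) ^ i * c.getD (59 - i) 0

lemma kr_ok : kr A ∧ ∀ j < 57, kr (cs.getD j []) := by decide +kernel

set_option synthInstance.maxSize 2048 in
lemma odd_ok : ∀ u < 9, ∀ v < 9, u + v < 8 →
    (∃ k < 57, k ≠ 0 ∧ descs.getD k (0, 0, 0, 0) = (1, 1, u, v)) ∧
      (u ≤ v → ∃ k < 57, k ≠ 0 ∧ descs.getD k (0, 0, 0, 0) = (2, 1, u, v)) := by decide +kernel

lemma all_ok : ∀ k < 117, ((descs.getD k (0, 0, 0, 0)).1 = 0 ↔ k = 0) ∧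
    (descs.getD k (0, 0, 0, 0)).2.2.1 ≤ 8 ∧ (descs.getD k (0, 0, 0, 0)).2.2.2 ≤ 8 := by
  decide +kernel

lemma c51_ok : c51.length = 52 ∧ ∀ w < 52,
    c51.getD w 0 = (Nat.descFactorial 51 w / Nat.factorial w : ℕ) := by decide +kernel

lemma c59_ok : c59.length = 60 ∧ ∀ w < 60,
    c59.getD w 0 = (Nat.descFactorial 59 w / Nat.factorial w : ℕ) := by decide +kernel

end Pool.Agent.MP_649b0b_mp.H34
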