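import Pool.Agent.MP_649b0b_mp.H34.Defs

/-!
The Knill-Laflamme conditions for permutation invariant codes in terms of amplitudes.
-/

open Finset
open scoped ComplexConjugate ContDiff Topology

noncomputable section

namespace Pool.Agent.MP_649b0b_mp.H34

lemma wt_le {n : ℕ} (x : Fin n → Fin 2) : wt x ≤ n := by
  simpa [wt] using sum_le_card_nsmul univ (fun i => (x i : ℕ)) 1 fun i _ => by omega

lemma sum_wt (m : ℕ) (f : ℕ → ℂ) :
    ∑ z : Fin m → Fin 2, f (wt z) = ∑ w ∈ range (m + 1), m.choose w * f w := by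
  induction m generalizing f with
  | zero => simp [wt]
  | succ m ih =>
    rw [sum_choose_succ_mul (fun i _ => f i), ← ih, ← ih fun i => f (i + 1),
      ← (Fin.consEquiv fun _ => Fin 2).sum_comp, Fintype.sum_prod_type, Fin.sum_univ_two]
    simp [wt, Fin.sum_univ_succ, Fin.consEquiv, add_comm]

lemma exists_wt {m u : ℕ} (h : u ≤ m) : ∃ x : Fin m → Fin 2, wt x = u := by
  obtain ⟨s, -, hs⟩ := exists_subset_card_eq (s := (univ : Finset (Fin m))) (n := u) (by simpa)
  exact ⟨fun i => if i ∈ s then 1 else 0, by simp [wt, apply_ite, hs]⟩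

lemma wt_glue {n k l : ℕ} (e : Fin k ⊕ Fin l ≃ Fin n) (x : Fin k → Fin 2) (z : Fin l → Fin 2) :
    wt (fun i => Sum.elim x z (e.symm i)) = wt z + wt x := by
  rw [wt, ← e.sum_comp]
  simp [wt, add_comm]

abbrev V := (Fin 60 → ℝ) × (Fin 60 → ℝ)

/-- The amplitudes of the two code words, as one sequence. -/
def amp : V →ₗ[ℝ] ℕ → ℝ where
  toFun P i := if h : i < 60 then P.1 ⟨i, h⟩ / √(Nat.choose 59 i) else
    if h : i - 60 < 60 then P.2 ⟨i - 60, h⟩ / √(Nat.choose 59 (i - 60)) else 0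
  map_add' P Q := by ext i; simp only [Pi.add_apply]; split_ifs <;> simp [add_div]
  map_smul' c P := by ext i; simp only [Pi.smul_apply]; split_ifs <;> simp [mul_div_assoc]

lemma amp_surj {x : ℕ → ℝ} (hx : ∀ i ≥ 120, x i = 0) : ∃ P, amp P = x := by
  refine ⟨(fun i => x i * √(Nat.choose 59 i), fun i => x (60 + i) * √(Nat.choose 59 i)), ?_⟩
  have : ∀ i < 60, √(Nat.choose 59 i) ≠ 0 := fun i hi => by
    have := Nat.choose_pos (show i ≤ 59 by omega)
    positivity
  ext i
  simp only [amp, LinearMap.coe_mk, AddHom.coe_mk]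
  split_ifs with h h'
  · rw [mul_div_cancel_right₀ _ (this i h)]
  · rw [mul_div_cancel_right₀ _ (this _ h'), Nat.add_sub_cancel' (by omega)]
  · exact (hx i (by omega)).symm

lemma state_apply {n : ℕ} (α : Fin (n + 1) → ℝ) (x : Fin n → Fin 2) :
    state (fun i => α i) x = (α ⟨wt x, Nat.lt_succ_of_le (wt_le x)⟩ / √(n.choose (wt x)) : ℝ) := by
  rw [state, sum_eq_single ⟨wt x, Nat.lt_succ_of_le (wt_le x)⟩ (fun i _ hi => by
    rw [dicke, if_neg fun e => hi (Fin.ext e.symm), mul_zero]) (by simp)]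
  simp [dicke, div_eq_mul_inv]

lemma state_eq (P : V) : ∀ (a : Fin 2) (x : Fin 59 → Fin 2),
    state ((![fun i => P.1 i, fun i => P.2 i] : Fin 2 → Fin 60 → ℂ) a) x =
      amp P (wt x + 60 * a) := by
  refine Fin.forall_fin_two.2 ⟨fun x => ?_, fun x => ?_⟩ <;>
    refine (state_apply _ x).trans (congrArg _ ?_) <;>
    have h := Nat.lt_succ_of_le (wt_le x) <;>
    generalize_proofs <;> generalize wt x = w at * <;> simp [amp, h]

/-- The overlaps of the amplitudes. -/
def G (m u v : ℕ) (x : ℕ → ℝ) : ℝ := ∑ w ∈ range (m + 1), m.choose w * x (w + u) * x (w + v)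

lemma G_symm (m u v : ℕ) (x : ℕ → ℝ) : G m u v x = G m v u x :=
  sum_congr rfl fun _ _ => by ring

lemma braket_eq {m : ℕ} {φ ψ : (Fin m → Fin 2) → ℂ} {x : ℕ → ℝ} {u v : ℕ}
    (h : ∀ z, φ z = x (wt z + u)) (h' : ∀ z, ψ z = x (wt z + v)) : braket φ ψ = G m u v x := by
  simp only [braket, h, h', Complex.conj_ofReal]
  rw [sum_wt m fun w => (x (w + u) : ℂ) * x (w + v)]
  simp [G, mul_assoc]

def Cond (x : ℕ → ℝ) : Prop :=
  G 59 0 0 x = 1 ∧ G 59 60 60 x = 1 ∧ G 59 0 60 x = 0 ∧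
    ∀ u ≤ 8, ∀ v ≤ 8, G 51 u (60 + v) x = 0 ∧ G 51 u v x = G 51 (60 + u) (60 + v) x

lemma mem_iff (P : V) : P ∈ realCodes 59 4 ↔ Cond (amp P) := by
  have h1 : ∀ a b : Fin 2, braket
      (state ((![fun i => P.1 i, fun i => P.2 i] : Fin 2 → Fin 60 → ℂ) a))
      (state ((![fun i => P.1 i, fun i => P.2 i] : Fin 2 → Fin 60 → ℂ) b)) =
      G 59 (60 * a) (60 * b) (amp P) := fun a b => braket_eq (state_eq P a) (state_eq P b)
  have h2 : ∀ (I J : Finset (Fin 59)) (hI : I.card = 2 * 4) (hJ : J.card = 2 * 4) x y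
      (a b : Fin 2),
      braket (del I hI x (state ((![fun i => P.1 i, fun i => P.2 i] : Fin 2 → Fin 60 → ℂ) a)))
      (del J hJ y (state ((![fun i => P.1 i, fun i => P.2 i] : Fin 2 → Fin 60 → ℂ) b))) =
      G 51 (60 * a + wt x) (60 * b + wt y) (amp P) := fun I J hI hJ x y a b =>
    braket_eq (fun z => by rw [del, state_eq, wt_glue, add_assoc, add_comm (wt x)])
      (fun z => by rw [del, state_eq, wt_glue, add_assoc, add_comm (wt y)])
  change _ ∧ _ ↔ _
  simp only [h1, h2]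
  refine ⟨fun ⟨h, h'⟩ => ⟨by simpa using h 0 0, by simpa using h 1 1,
    by simpa using h 0 1, fun u hu v hv => ?_⟩, fun ⟨a, b, c, h⟩ => ⟨?_, ?_⟩⟩
  · obtain ⟨x, rfl⟩ := exists_wt (m := 2 * 4) hu
    obtain ⟨y, rfl⟩ := exists_wt (m := 2 * 4) hv
    obtain ⟨I, -, hI⟩ := exists_subset_card_eq (s := (univ : Finset (Fin 59))) (n := 2 * 4)
      (by simp)
    obtain ⟨g, hg⟩ := h' I I hI hI x y
    refine ⟨by simpa using hg 0 1, ?_⟩
    simpa using (hg 0 0).trans (hg 1 1).symm
  · simp [Fin.forall_fin_two, a, b, c, G_symm 59 60 0]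
  · intro _ _ _ _ x y
    have hx := wt_le x
    have hy := wt_le y
    exact ⟨G 51 (wt x) (wt y) (amp P), by
      simp [Fin.forall_fin_two, (h _ hx _ hy).1, (h _ hx _ hy).2, G_symm 51 (60 + wt x) (wt y),
        (h _ hy _ hx).1]⟩

/-- Invariance under time reversal. -/
def Kr (x : ℕ → ℝ) : Prop := ∀ i < 60, x (60 + i) = (-1) ^ i * x (59 - i)

lemma Kr.bb {x : ℕ → ℝ} (h : Kr x) {m s u v : ℕ} (hm : m + s = 59) (hu : u ≤ s) (hv : v ≤ s) :
    G m (60 + u) (60 + v) x = (-1) ^ (u + v) * G m (s - u) (s - v) x := by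
  rw [G, G, ← sum_range_reflect, mul_sum]
  refine sum_congr rfl fun w hw => ?_
  have := mem_range.1 hw
  rw [show m + 1 - 1 - w = m - w by omega, Nat.choose_symm (by omega),
    show m - w + (60 + u) = 60 + (m - w + u) by omega,
    show m - w + (60 + v) = 60 + (m - w + v) by omega, h _ (by omega), h _ (by omega),
    show 59 - (m - w + u) = w + (s - u) by omega, show 59 - (m - w + v) = w + (s - v) by omega]
  have : ((-1 : ℝ) ^ (m - w)) ^ 2 = 1 := by rw [← pow_mul, mul_comm, pow_mul]; simp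
  linear_combination (-1) ^ (u + v) * m.choose w * x (w + (s - u)) * x (w + (s - v)) * this

lemma Kr.ab {x : ℕ → ℝ} (h : Kr x) {m s u v : ℕ} (hm : m + s = 59) (hu : u ≤ s) (hv : v ≤ s) :
    G m u (60 + v) x = (-1) ^ (u + v + 1) * G m (s - v) (60 + (s - u)) x := by
  rw [G, G, ← sum_range_reflect, mul_sum]
  refine sum_congr rfl fun w hw => ?_
  have := mem_range.1 hw
  rw [show m + 1 - 1 - w = m - w by omega, Nat.choose_symm (by omega),
    show m - w + (60 + v) = 60 + (m - w + v) by omega,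
    show w + (60 + (s - u)) = 60 + (w + (s - u)) by omega, h _ (by omega), h _ (by omega),
    show 59 - (m - w + v) = w + (s - v) by omega, show 59 - (w + (s - u)) = m - w + u by omega]
  have : (-1 : ℝ) ^ (m - w + v) = (-1) ^ (u + v + 1) * (-1) ^ (w + (s - u)) := by
    rw [← pow_add, neg_one_pow_eq_pow_mod_two, neg_one_pow_eq_pow_mod_two (n := _ + (w + _))]
    congr 1
    omega
  rw [this]
  ring

/-- The tangent space of a submanifold contained in a quadric. -/
lemma dim_le {E W : Type*} [NormedAddCommGroup E] [NormedSpace ℝ E] [FiniteDimensional ℝ E]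
    [NormedAddCommGroup W] [NormedSpace ℝ W] {S : Set E} {p : E} {d : ℕ} (hp : p ∈ S)
    (h : IsSubmanifoldAt S p d) (B : E →ₗ[ℝ] E →ₗ[ℝ] W) (hB : ∀ x y, B x y = B y x) (c : W)
    (hS : ∀ x ∈ S, B x x = c) : d ≤ Module.finrank ℝ (LinearMap.ker (B p)) := by
  obtain ⟨ψ, L, h0, h1, h2, rfl, h3⟩ := h
  have h4 := ψ.map_source h0
  have d1 := ((h1.contDiffAt (ψ.open_source.mem_nhds h0)).differentiableAt (by simp)).hasFDerivAt
  have d2 := ((h2.contDiffAt (ψ.open_target.mem_nhds h4)).differentiableAt (by simp)).hasFDerivAt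
  set D := fderiv ℝ ψ.symm (ψ p)
  have hD : Function.Injective D := by
    have := (HasFDerivAt.comp (ψ p) (by rwa [ψ.left_inv h0]) d2).unique
      ((hasFDerivAt_id _).congr_of_eventuallyEq (ψ.eventually_right_inverse h4))
    exact Function.LeftInverse.injective (g := fderiv ℝ ψ p) (DFunLike.congr_fun this)
  refine LinearMap.finrank_le_finrank_of_injective
    (f := (D.toLinearMap ∘ₗ L.subtype).codRestrict _ fun l => ?_)
    fun l l' h => Subtype.ext (hD (congrArg Subtype.val h))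
  have l1 : HasDerivAt (fun τ : ℝ => ψ p + τ • l.1) l.1 0 := by
    simpa using ((hasDerivAt_id (0 : ℝ)).smul_const l.1).const_add (ψ p)
  have l2 : HasDerivAt (fun τ : ℝ => ψ.symm (ψ p + τ • l.1)) (D l) 0 :=
    HasFDerivAt.comp_hasDerivAt 0 (by simpa using d2) l1
  have l3 := (B.toContinuousBilinearMap.hasFDerivAt.comp_hasDerivAt 0 l2).clm_apply l2
  have l4 : ∀ᶠ τ : ℝ in 𝓝 0, ψ p + τ • l.1 ∈ ψ.target :=
    l1.continuousAt.eventually (by simpa using ψ.open_target.mem_nhds h4)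
  have l5 := l3.unique ((hasDerivAt_const 0 c).congr_of_eventuallyEq (l4.mono fun τ hτ =>
    hS _ ((h3 _ (ψ.map_target hτ)).2 (by
      rw [ψ.right_inv hτ]
      exact L.add_mem ((h3 p h0).1 hp) (L.smul_mem _ l.2)))))
  simp only [Function.comp_apply, LinearMap.toContinuousBilinearMap_apply, zero_smul, add_zero,
    ψ.left_inv h0, hB (D l) p, ← two_smul ℝ] at l5
  simpa using l5

end Pool.Agent.MP_649b0b_mp.H34
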