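import Mathlib

/-!
Permutation invariant qubit codes and embedded submanifolds.
-/

open Finset
open scoped ComplexConjugate ContDiff

noncomputable section

namespace Pool.Agent.MP_649b0b_mp.H34

/-- The number of ones of a bit string. -/
def wt {n : ℕ} (x : Fin n → Fin 2) : ℕ := ∑ i, (x i : ℕ)

/-- The Dicke state of weight `w`, as a function on the computational basis. -/
def dicke (n w : ℕ) (x : Fin n → Fin 2) : ℂ :=
  if wt x = w then ((√(n.choose w) : ℝ) : ℂ)⁻¹ else 0

/-- The state with coefficients `α` in the Dicke basis. -/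
def state {n : ℕ} (α : Fin (n + 1) → ℂ) (x : Fin n → Fin 2) : ℂ := ∑ i, α i * dicke n i x

/-- The Hermitian scalar product. -/
def braket {m : ℕ} (φ ψ : (Fin m → Fin 2) → ℂ) : ℂ := ∑ z, conj (φ z) * ψ z

/-- The Kraus operator of the deletion channel: the bra of `x` on the qubits in `I`. -/
def del {n k : ℕ} (I : Finset (Fin n)) (hI : I.card = k) (x : Fin k → Fin 2)
    (ψ : (Fin n → Fin 2) → ℂ) (z : Fin (n - k) → Fin 2) : ℂ :=
  ψ fun i => Sum.elim x z ((finSumEquivOfFinset hI (by simp [card_compl, hI])).symm i)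

/-- The two states with Dicke coefficients `c 0`, `c 1` are orthonormal and satisfy the
Knill-Laflamme conditions for `2 t` deletions. -/
def IsCode (n t : ℕ) (c : Fin 2 → Fin (n + 1) → ℂ) : Prop :=
  (∀ a b, braket (state (c a)) (state (c b)) = if a = b then 1 else 0) ∧
    ∀ (I J : Finset (Fin n)) (hI : I.card = 2 * t) (hJ : J.card = 2 * t)
      (x y : Fin (2 * t) → Fin 2), ∃ g : ℂ, ∀ a b,
        braket (del I hI x (state (c a))) (del J hJ y (state (c b))) = if a = b then g else 0

/-- The set of real permutation invariant codes of length `n` correcting `t` errors. -/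
def realCodes (n t : ℕ) : Set ((Fin (n + 1) → ℝ) × (Fin (n + 1) → ℝ)) :=
  {p | IsCode n t ![fun i => p.1 i, fun i => p.2 i]}

/-- `S` is a smooth embedded submanifold of dimension `d` near the point `p`: a local
diffeomorphism of the ambient space carries it to a linear subspace of dimension `d`. -/
def IsSubmanifoldAt {E : Type*} [NormedAddCommGroup E] [NormedSpace ℝ E] (S : Set E) (p : E)
    (d : ℕ) : Prop :=
  ∃ (ψ : OpenPartialHomeomorph E E) (L : Submodule ℝ E), p ∈ ψ.source ∧
    ContDiffOn ℝ ∞ ψ ψ.source ∧ ContDiffOn ℝ ∞ ψ.symm ψ.target ∧ Module.finrank ℝ L = d ∧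
    ∀ x ∈ ψ.source, x ∈ S ↔ ψ x ∈ L

end Pool.Agent.MP_649b0b_mp.H34
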