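import Pool.Agent.MP_649b0b_mp.H34.Check
import Pool.Agent.MP_649b0b_mp.H34.Code

/-!
A real permutation invariant code of length 59 correcting four errors.
-/

open Finset

set_option exponentiation.threshold 512

noncomputable section

namespace Pool.Agent.MP_649b0b_mp.H34

lemma H51 (u v : ℕ) (x : ℕ → ℝ) : H c51 u v x x = G 51 u v x := by
  rw [H_apply, c51_ok.1]
  refine sum_congr rfl fun w hw => ?_
  rw [fn, c51_ok.2 w (mem_range.1 hw), ← Nat.choose_eq_descFactorial_div_factorial, Int.cast_natCast]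

lemma H59 (u v : ℕ) (x : ℕ → ℝ) : H c59 u v x x = G 59 u v x := by
  rw [H_apply, c59_ok.1]
  refine sum_congr rfl fun w hw => ?_
  rw [fn, c59_ok.2 w (mem_range.1 hw), ← Nat.choose_eq_descFactorial_div_factorial, Int.cast_natCast]

lemma q_mk (τ : ℕ) (ε : ℤ) (u v : ℕ) (x : ℕ → ℝ) : q (mk (τ, ε, u, v)) x x =
    2 * if τ = 0 then G 59 0 0 x + G 59 60 60 x else if τ = 1 then
      G 51 u (60 + v) x + ε * (-1) ^ (u + v + 1) * G 51 (8 - v) (60 + (8 - u)) x else
      G 51 u v x - G 51 (60 + u) (60 + v) x + ε * (-1) ^ (u + v + 1) *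
        (G 51 (8 - u) (8 - v) x - G 51 (60 + (8 - u)) (60 + (8 - v)) x) := by
  simp only [mk]
  split_ifs <;> simp only [q_cons, H51, H59] <;> simp [q, G_symm 51 (60 + v), G_symm 51 v u,
    G_symm 51 (60 + (8 - u)) (8 - v), G_symm 51 (8 - v) (8 - u),
    G_symm 51 (60 + (8 - v)) (60 + (8 - u))] <;> ring

/-- The right hand sides. -/
def rhs (k : ℕ) : ℝ := if k = 0 then 4 else 0

lemma Cond.eq {x : ℕ → ℝ} (h : Cond x) {k : ℕ} (hk : k < 117) : q (es k) x x = rhs k := by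
  obtain ⟨h1, h2, h3⟩ := all_ok k hk
  obtain ⟨a, b, -, h⟩ := h
  rw [es, rhs]
  generalize descs.getD k (0, 0, 0, 0) = d at *
  obtain ⟨τ, ε, u, v⟩ := d
  simp only at h1 h2 h3
  rw [q_mk, a, b, (h u h2 v h3).1, (h u h2 v h3).2, (h (8 - v) (by omega) (8 - u) (by omega)).1,
    (h (8 - u) (by omega) (8 - v) (by omega)).2, if_congr h1 rfl rfl]
  split_ifs <;> norm_num

lemma Kr.cond {x : ℕ → ℝ} (h : Kr x) (he : ∀ k < 57, q (es k) x x = rhs k) : Cond x := by
  have b0 := h.bb (m := 59) (s := 0) (u := 0) (v := 0) rfl le_rfl le_rfl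
  have b1 := h.ab (m := 59) (s := 0) (u := 0) (v := 0) rfl le_rfl le_rfl
  have b2 := he 0 (by norm_num)
  rw [es, show descs.getD 0 (0, 0, 0, 0) = (0, 1, 0, 0) from rfl, q_mk, rhs] at b2
  norm_num at b0 b1 b2
  have sq : ∀ k : ℕ, (-1 : ℝ) ^ k * (-1) ^ k = 1 := fun k => by rw [← mul_pow]; simp
  have hX : ∀ u v, u + v < 8 → G 51 u (60 + v) x = 0 := fun u v huv => by
    obtain ⟨k, hk, hk0, hd⟩ := (odd_ok u (by omega) v (by omega) huv).1
    have := he k hk
    rw [es, hd, q_mk, rhs, if_neg hk0] at this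
    norm_num at this
    linarith [h.ab (m := 51) (s := 8) (u := u) (v := v) rfl (by omega) (by omega)]
  have hY : ∀ u v, u + v < 8 → G 51 u v x = G 51 (60 + u) (60 + v) x := fun u v huv => by
    wlog huv' : u ≤ v generalizing u v
    · rw [G_symm, this v u (by omega) (by omega), G_symm]
    obtain ⟨k, hk, hk0, hd⟩ := (odd_ok u (by omega) v (by omega) huv).2 huv'
    have := he k hk
    rw [es, hd, q_mk, rhs, if_neg hk0] at this
    norm_num at this
    have h1 := h.bb (m := 51) (s := 8) (u := u) (v := v) rfl (by omega) (by omega)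
    have h2 := h.bb (m := 51) (s := 8) (u := 8 - u) (v := 8 - v) rfl (by omega) (by omega)
    rw [Nat.sub_sub_self (by omega), Nat.sub_sub_self (by omega), neg_one_pow_eq_pow_mod_two,
      show (8 - u + (8 - v)) % 2 = (u + v) % 2 by omega, ← neg_one_pow_eq_pow_mod_two] at h2
    rw [h2, pow_succ] at this
    linear_combination this / 2 - h1 / 2 - G 51 u v x / 2 * sq (u + v)
  refine ⟨by linarith, by linarith, by linarith, fun u hu v hv => ?_⟩
  have h1 := h.ab (m := 51) (s := 8) rfl hu hv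
  have h2 := h.bb (m := 51) (s := 8) rfl hu hv
  rcases lt_trichotomy (u + v) 8 with huv | huv | huv
  · exact ⟨hX u v huv, hY u v huv⟩
  · rw [huv, show 8 - u = v by omega, show 8 - v = u by omega] at h1 h2
    norm_num at h1 h2
    exact ⟨by linarith, by rw [h2, G_symm]⟩
  · refine ⟨by rw [h1, hX _ _ (by omega), mul_zero], ?_⟩
    have h3 := h.bb (m := 51) (s := 8) (u := 8 - u) (v := 8 - v) rfl (by omega) (by omega)
    rw [Nat.sub_sub_self hu, Nat.sub_sub_self hv, neg_one_pow_eq_pow_mod_two,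
      show (8 - u + (8 - v)) % 2 = (u + v) % 2 by omega, ← neg_one_pow_eq_pow_mod_two] at h3
    rw [h2, hY (8 - u) (8 - v) (by omega), h3, ← mul_assoc, sq, one_mul]

lemma kr_fn {c : List ℤ} (h : kr c) : Kr (fn c) := fun i hi => by
  simp only [kr, fL_eq, List.all_eq_true, List.mem_range, decide_eq_true_eq] at h
  rw [fn, h i hi]
  simp [fn]

lemma bd_es (k : ℕ) : (bd (es k) : ℝ) ≤ 2 ^ 61 := by
  rcases lt_or_ge k 118 with h | h
  · exact_mod_cast bd_ok k h
  · have := bd_ok 117 (by norm_num)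
    rw [es, List.getD_eq_default _ _ len_ok.2.1.le] at this
    rw [es, List.getD_eq_default _ _ (by rw [len_ok.2.1]; omega)]
    exact_mod_cast this

lemma supp_cols {m : ℕ} (hm : m ≤ 117) (D : ℝ) (y : Fin m → ℝ) (i : ℕ) (hi : 120 ≤ i) :
    cols m cs D y i = 0 := by
  rw [cols_apply, Finset.sum_apply]
  refine sum_eq_zero fun j _ => ?_
  simp only [Pi.smul_apply, fn]
  rw [List.getD_eq_default _ _ (by rwa [len_ok.2.2.2 j (by omega)])]
  simp

lemma lin_ok {m : ℕ} (hm : m ≤ 117) (y : Fin m → ℝ) :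
    ‖lin (fun k : Fin m => es k) (((2 : ℝ) ^ 200)⁻¹ • fn A) (cols m cs (2 ^ 74) y) - y‖ ≤
      1 / 4 * ‖y‖ := by
  refine lin_cols (B := 2 ^ 273) (by norm_num) (by norm_num) (by norm_num) (fun k hk => ?_) y
  have := chk_row chk_ok (fun k j => ?_) (len_ok.1 ▸ hm) hk
  · exact_mod_cast this
  · refine ((q_le _ (fn_le (by norm_num) A_ok 0) (fn_le (by norm_num) cs_ok j)).trans
      (mul_le_mul_of_nonneg_right (bd_es k) (by norm_num))).trans_lt (by norm_num)

lemma col_ok {m : ℕ} (hm : m ≤ 117) (y : Fin m → ℝ) (i : ℕ) :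
    |cols m cs (2 ^ 74) y i| ≤ 2 ^ 17 * ‖y‖ := by
  have := cols_le m (by norm_num) (by norm_num) cs_ok y i
  have hm' : (m : ℝ) ≤ 117 := by exact_mod_cast hm
  rw [Int.cast_pow, Int.cast_ofNat, Int.cast_ofNat] at this
  nlinarith [norm_nonneg y]

theorem main : ∃ p ∈ realCodes 59 4, ∀ d, IsSubmanifoldAt (realCodes 59 4) p d → d ≤ 3 := by
  have hr : 8 * (2 : ℝ) ^ 61 * (2 ^ 17) ^ 2 * (2 ^ 98)⁻¹ ≤ 1 := by norm_num
  obtain ⟨y, hy, h⟩ := newton (m := 57) (fun k => bd_es k) (col_ok (by norm_num))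
    (lin_ok (by norm_num)) hr (by norm_num) (by norm_num) (fun k => rhs k) fun k => by
      have : ((|qZ A A (es k) - if k.1 = 0 then 4 * 2 ^ 400 else 0| : ℤ) : ℝ) ≤ (2 ^ 301 : ℤ) :=
        Int.cast_le.2 (res_ok k k.2)
      have e : q (es k) (((2 : ℝ) ^ 200)⁻¹ • fn A) (((2 : ℝ) ^ 200)⁻¹ • fn A) - rhs k =
          (2 ^ 400)⁻¹ * ((qZ A A (es k) - if k.1 = 0 then 4 * 2 ^ 400 else 0 : ℤ) : ℝ) := by
        simp only [map_smul, LinearMap.smul_apply, q_eq, smul_eq_mul, rhs]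
        split_ifs <;> push_cast <;> ring
      rw [e, abs_mul, ← Int.cast_abs, abs_of_pos (by positivity)]
      exact (mul_le_mul_of_nonneg_left this (by positivity)).trans (by norm_num)
  have hs := surj (m := 117) (fun k => bd_es k) (col_ok le_rfl) (lin_ok le_rfl) hr (by norm_num)
    (by norm_num) (x := cols 57 cs (2 ^ 74) y) fun i =>
      (col_ok (by norm_num) y i).trans (by gcongr)
  set x := ((2 : ℝ) ^ 200)⁻¹ • fn A + cols 57 cs (2 ^ 74) y with hx
  have hk : Kr x := fun i hi => by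
    simp only [hx, cols_apply, Pi.add_apply, Finset.sum_apply, Pi.smul_apply, smul_eq_mul,
      kr_fn kr_ok.1 i hi, mul_add, mul_sum]
    congr 1
    · ring
    · exact sum_congr rfl fun j _ => by rw [kr_fn (kr_ok.2 j j.2) i hi]; ring
  obtain ⟨P, hP⟩ := amp_surj (x := x) fun i hi => by
    rw [hx, Pi.add_apply, supp_cols (by norm_num) _ _ _ hi, Pi.smul_apply, fn,
      List.getD_eq_default _ _ (len_ok.2.2.1 ▸ hi)]
    simp
  have hm : P ∈ realCodes 59 4 := (mem_iff P).2 (hP ▸ hk.cond fun k hk => h ⟨k, hk⟩)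
  refine ⟨P, hm, fun d hd => ?_⟩
  let B : V →ₗ[ℝ] V →ₗ[ℝ] Fin 117 → ℝ :=
    LinearMap.mk₂ ℝ (fun P Q => lin (fun k : Fin 117 => es k) (amp P) (amp Q))
      (fun _ _ _ => by ext; simp [lin]) (fun _ _ _ => by ext; simp [lin, mul_left_comm])
      (fun _ _ _ => by simp) (fun _ _ _ => by simp)
  have h1 := dim_le hm hd B (fun P Q => funext fun k => congrArg (2 * ·) (q_symm _ _ _))
    (fun k => 2 * rhs k) fun Q hQ => funext fun k =>
      congrArg (2 * ·) (((mem_iff Q).1 hQ).eq k.2)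
  have h2 := (B P).finrank_range_add_finrank_ker
  rw [LinearMap.range_eq_top.2 fun z => by
    obtain ⟨w, rfl⟩ := hs z
    obtain ⟨Q, hQ⟩ := amp_surj (supp_cols le_rfl (2 ^ 74) w)
    exact ⟨Q, by simp [B, hP, hQ]⟩] at h2
  simp at h2
  omega

end Pool.Agent.MP_649b0b_mp.H34
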