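import Mathlib

/-!
A certificate for the solvability and the rank of a system of quadratic equations.
-/

open Finset

noncomputable section

namespace Pool.Agent.MP_649b0b_mp.H34

/-- A list of integers as a real sequence. -/
def fn (l : List ℤ) (i : ℕ) : ℝ := l.getD i 0

/-- A weighted and shifted scalar product. -/
def H (cl : List ℤ) (u v : ℕ) : (ℕ → ℝ) →ₗ[ℝ] (ℕ → ℝ) →ₗ[ℝ] ℝ :=
  LinearMap.mk₂ ℝ (fun x y => ∑ w ∈ range cl.length, fn cl w * x (w + u) * y (w + v))
    (fun _ _ _ => by simp [mul_add, add_mul, sum_add_distrib])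
    (fun _ _ _ => by simp [mul_sum, mul_left_comm, mul_assoc])
    (fun _ _ _ => by simp [mul_add, sum_add_distrib])
    (fun _ _ _ => by simp [mul_sum, mul_left_comm])

lemma H_apply (cl : List ℤ) (u v : ℕ) (x y : ℕ → ℝ) :
    H cl u v x y = ∑ w ∈ range cl.length, fn cl w * x (w + u) * y (w + v) := rfl

lemma H_symm (cl : List ℤ) (u v : ℕ) (x y : ℕ → ℝ) : H cl u v x y = H cl v u y x := by
  rw [H_apply, H_apply]
  exact sum_congr rfl fun _ _ => by ring

abbrev Tm := ℤ × List ℤ × ℕ × ℕ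

/-- The symmetric bilinear form of an equation. -/
def q : List Tm → (ℕ → ℝ) →ₗ[ℝ] (ℕ → ℝ) →ₗ[ℝ] ℝ
  | [] => 0
  | t :: e => (t.1 : ℝ) • (H t.2.1 t.2.2.1 t.2.2.2 + H t.2.1 t.2.2.2 t.2.2.1) + q e

lemma q_cons (t : Tm) (e : List Tm) (x y : ℕ → ℝ) : q (t :: e) x y =
    t.1 * (H t.2.1 t.2.2.1 t.2.2.2 x y + H t.2.1 t.2.2.2 t.2.2.1 x y) + q e x y := rfl

lemma q_symm (e : List Tm) (x y : ℕ → ℝ) : q e x y = q e y x := by
  induction e with
  | nil => rfl
  | cons t e ih => rw [q_cons, q_cons, ih, H_symm _ _ _ x y, H_symm _ t.2.2.2 _ x y]; ring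

def asum : List ℤ → ℤ
  | [] => 0
  | a :: l => |a| + asum l

lemma asum_eq (l : List ℤ) : (asum l : ℝ) = ∑ w ∈ range l.length, |fn l w| := by
  induction l with
  | nil => simp [asum]
  | cons a l ih => simp [asum, ih, sum_range_succ', fn, add_comm]

def bd : List Tm → ℤ
  | [] => 0
  | t :: e => |t.1| * (2 * asum t.2.1) + bd e

lemma H_le (cl : List ℤ) (u v : ℕ) {x y : ℕ → ℝ} {a b : ℝ} (hx : ∀ i, |x i| ≤ a)
    (hy : ∀ i, |y i| ≤ b) : |H cl u v x y| ≤ asum cl * (a * b) := by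
  rw [H_apply, asum_eq, sum_mul]
  refine (abs_sum_le_sum_abs _ _).trans (sum_le_sum fun w _ => ?_)
  rw [abs_mul, abs_mul, mul_assoc]
  have := (abs_nonneg _).trans (hx 0)
  gcongr
  exacts [hx _, hy _]

lemma q_le (e : List Tm) {x y : ℕ → ℝ} {a b : ℝ} (hx : ∀ i, |x i| ≤ a) (hy : ∀ i, |y i| ≤ b) :
    |q e x y| ≤ bd e * (a * b) := by
  induction e with
  | nil => simp [q, bd]
  | cons t e ih =>
    rw [q_cons, bd]
    refine (abs_add_le _ _).trans ?_
    have h1 := (abs_add_le _ _).trans (add_le_add (H_le t.2.1 t.2.2.1 t.2.2.2 hx hy)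
      (H_le t.2.1 t.2.2.2 t.2.2.1 hx hy))
    rw [abs_mul]
    push_cast
    nlinarith [mul_le_mul_of_nonneg_left h1 (abs_nonneg (t.1 : ℝ))]

def dot : List ℤ → List ℤ → List ℤ → ℤ
  | c :: cl, a :: x, b :: y => c * a * b + dot cl x y
  | _, _, _ => 0

lemma dot_eq (cl x y : List ℤ) :
    (dot cl x y : ℝ) = ∑ i ∈ range cl.length, fn cl i * fn x i * fn y i := by
  induction cl generalizing x y with
  | nil => simp [dot]
  | cons c cl ih =>
    cases x with
    | nil => simp [dot, fn]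
    | cons a x =>
      cases y with
      | nil => simp [dot, fn]
      | cons b y => simp [dot, ih, sum_range_succ', fn, add_comm]

lemma H_eq (cl : List ℤ) (u v : ℕ) (x y : List ℤ) :
    H cl u v (fn x) (fn y) = dot cl (x.drop u) (y.drop v) := by
  rw [H_apply, dot_eq]
  exact sum_congr rfl fun _ _ => by simp [fn, add_comm]

def qZ (x y : List ℤ) : List Tm → ℤ
  | [] => 0
  | t :: e => t.1 * (dot t.2.1 (x.drop t.2.2.1) (y.drop t.2.2.2) +
      dot t.2.1 (x.drop t.2.2.2) (y.drop t.2.2.1)) + qZ x y e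

lemma q_eq (e : List Tm) (x y : List ℤ) : q e (fn x) (fn y) = qZ x y e := by
  induction e with
  | nil => simp [q, qZ]
  | cons t e ih => simp [q_cons, ih, H_eq, qZ]

def comb (W : ℤ) : List ℤ → List ℤ → List ℤ
  | a :: l, b :: l' => (a + W * b) :: comb W l l'
  | l, [] => l
  | [], l' => l'.map (W * ·)

lemma fn_comb (W : ℤ) (l l' : List ℤ) : fn (comb W l l') = fn l + (W : ℝ) • fn l' := by
  funext i
  induction l generalizing l' i with
  | nil =>
    cases l' with
    | nil => simp [comb, fn]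
    | cons b l' =>
      rw [comb]
      · simp only [fn, List.getD_eq_getElem?_getD, List.getElem?_map, Pi.add_apply, Pi.smul_apply]
        cases (b :: l')[i]? <;> simp
      · simp
  | cons a l ih =>
    cases l' with
    | nil => simp [comb, fn]
    | cons b l' =>
      cases i with
      | zero => simp [comb, fn]
      | succ i => simpa [comb, fn] using ih l' i

/-- All columns packed into one vector. -/
def pack (W : ℤ) : List (List ℤ) → List ℤ
  | [] => []
  | c :: cs => comb W c (pack W cs)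

lemma fn_pack (W : ℤ) (cs : List (List ℤ)) :
    fn (pack W cs) = ∑ j ∈ range cs.length, (W : ℝ) ^ j • fn (cs.getD j []) := by
  induction cs with
  | nil => funext i; simp [pack, fn]
  | cons c cs ih =>
    simp [pack, fn_comb, ih, sum_range_succ', smul_sum, smul_smul, pow_succ', add_comm]

lemma digit {W : ℤ} (m : ℕ) (d : ℕ → ℤ) (hd : ∀ j, 0 ≤ d j ∧ d j < W) {j : ℕ} (hj : j < m) :
    (∑ i ∈ range m, W ^ i * d i) / W ^ j % W = d j := by
  have hW : 0 < W := (hd 0).1.trans_lt (hd 0).2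
  induction m generalizing d j with
  | zero => omega
  | succ m ih =>
    have e : ∑ i ∈ range (m + 1), W ^ i * d i = d 0 + W * ∑ i ∈ range m, W ^ i * d (i + 1) := by
      simp [sum_range_succ', mul_sum, pow_succ', mul_assoc, add_comm]
    rw [e]
    cases j with
    | zero => simp [Int.emod_eq_of_lt (hd 0).1 (hd 0).2]
    | succ j =>
      rw [pow_succ', ← Int.ediv_ediv_of_nonneg hW.le, Int.add_mul_ediv_left _ _ hW.ne',
        Int.ediv_eq_zero_of_lt (hd 0).1 (hd 0).2, zero_add]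
      exact ih _ (fun _ => hd _) (by omega)

def fN (n : ℕ) (k : ℕ → Bool) : Bool := match n with
  | 0 => k 0
  | m + 1 => k (m + 1)

def fZ (x : ℤ) (k : ℤ → Bool) : Bool := match x with
  | .ofNat n => fN n fun n => k (.ofNat n)
  | .negSucc n => fN n fun n => k (.negSucc n)

def fL : List ℤ → (List ℤ → Bool) → Bool
  | [], k => k []
  | x :: l, k => fZ x fun x => fL l fun l => k (x :: l)

lemma fN_eq (n : ℕ) (k : ℕ → Bool) : fN n k = k n := by cases n <;> rfl

lemma fZ_eq (x : ℤ) (k : ℤ → Bool) : fZ x k = k x := by cases x <;> simp [fZ, fN_eq]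

lemma fL_eq (l : List ℤ) (k : List ℤ → Bool) : fL l k = k l := by
  induction l generalizing k with
  | nil => rfl
  | cons x l ih => rw [fL, fZ_eq, ih]

def chk (es : ℕ → List Tm) (A : List ℤ) (cs : List (List ℤ)) (B h : ℤ) : Bool :=
  fL A fun A => fL (pack (2 * h) cs) fun P =>
    fZ ((List.range cs.length).map fun j => (2 * h) ^ j * h).sum fun O =>
      (List.range cs.length).all fun k => fZ (qZ A P (es k) + O) fun N =>
        4 * ((List.range cs.length).map fun j =>
          |N / (2 * h) ^ j % (2 * h) - h - if j = k then B else 0|).sum ≤ B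

lemma chk_row {es : ℕ → List Tm} {A : List ℤ} {cs : List (List ℤ)} {B h : ℤ}
    (hc : chk es A cs B h) (hh : ∀ k j, |q (es k) (fn A) (fn (cs.getD j []))| < h)
    {m k : ℕ} (hm : m ≤ cs.length) (hk : k < m) :
    4 * ∑ j ∈ range m, |q (es k) (fn A) (fn (cs.getD j [])) - if j = k then (B : ℝ) else 0| ≤ B := by
  simp only [chk, fL_eq, fZ_eq, List.all_eq_true, List.mem_range, decide_eq_true_eq,
    show ∀ (m : ℕ) (f : ℕ → ℤ), ((List.range m).map f).sum = ∑ i ∈ range m, f i from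
      fun _ _ => rfl] at hc
  have h1 := hc k (by omega)
  have h2 : qZ A (pack (2 * h) cs) (es k) + ∑ j ∈ range cs.length, (2 * h) ^ j * h =
      ∑ j ∈ range cs.length, (2 * h) ^ j * (qZ A (cs.getD j []) (es k) + h) := by
    have := q_eq (es k) A (pack (2 * h) cs)
    rw [fn_pack, map_sum] at this
    simp only [map_smul, q_eq, smul_eq_mul] at this
    simp only [mul_add, sum_add_distrib]
    congr 1
    exact_mod_cast this.symm
  rw [h2, sum_congr rfl fun j hj => by
    rw [digit _ _ (fun j => by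
      have := hh k j
      rw [q_eq, abs_lt] at this
      norm_cast at this
      omega) (mem_range.1 hj), add_sub_cancel_right]] at h1
  have h3 := (mul_le_mul_of_nonneg_left (sum_le_sum_of_subset_of_nonneg (range_mono hm)
    fun _ _ _ => abs_nonneg _) (by norm_num)).trans h1
  simp only [q_eq]
  exact_mod_cast h3

section Newton

variable {m : ℕ} (e : Fin m → List Tm) (x₀ : ℕ → ℝ) (R : (Fin m → ℝ) →ₗ[ℝ] ℕ → ℝ)

/-- The linearization of the system at `x`. -/
def lin (x : ℕ → ℝ) : (ℕ → ℝ) →ₗ[ℝ] Fin m → ℝ := LinearMap.pi fun k => (2 : ℝ) • q (e k) x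

variable {e x₀ R} {M ρ r : ℝ} (hM : ∀ k, bd (e k) ≤ M) (hρ : ∀ y i, |R y i| ≤ ρ * ‖y‖)
  (h1 : ∀ y, ‖lin e x₀ (R y) - y‖ ≤ 1 / 4 * ‖y‖) (hr : 8 * M * ρ ^ 2 * r ≤ 1) 
  (hρ0 : 0 ≤ ρ) (hr0 : 0 ≤ r)
include hM hρ h1 hr hρ0 hr0

lemma near {x : ℕ → ℝ} (hx : ∀ i, |x i| ≤ ρ * r) (y : Fin m → ℝ) :
    ‖lin e (x₀ + x) (R y) - y‖ ≤ 1 / 2 * ‖y‖ := by
  have h2 : ‖lin e x (R y)‖ ≤ 1 / 4 * ‖y‖ := by
    refine (pi_norm_le_iff_of_nonneg (by positivity)).2 fun k => ?_
    have := (q_le (e k) hx (hρ y)).trans (mul_le_mul_of_nonneg_right (hM k) (by positivity))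
    change |2 * q (e k) x (R y)| ≤ _
    rw [abs_mul, abs_two]
    nlinarith [mul_le_mul_of_nonneg_right hr (norm_nonneg y)]
  have : lin e (x₀ + x) (R y) - y = (lin e x₀ (R y) - y) + lin e x (R y) := by
    ext k; simp [lin]; ring
  rw [this]
  linarith [norm_add_le (lin e x₀ (R y) - y) (lin e x (R y)), h1 y]

lemma surj {x : ℕ → ℝ} (hx : ∀ i, |x i| ≤ ρ * r) :
    Function.Surjective (lin e (x₀ + x) ∘ₗ R) := by
  refine LinearMap.injective_iff_surjective.1 ((injective_iff_map_eq_zero _).2 fun y hy => ?_)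
  have := near hM hρ h1 hr hρ0 hr0 hx y
  rw [show lin e (x₀ + x) (R y) = 0 from hy, zero_sub, norm_neg] at this
  exact norm_eq_zero.1 (by linarith [norm_nonneg y])

lemma newton (c : Fin m → ℝ) (hc : ∀ k, |q (e k) x₀ x₀ - c k| ≤ r / 2) :
    ∃ y, ‖y‖ ≤ r ∧ ∀ k, q (e k) (x₀ + R y) (x₀ + R y) = c k := by
  let f : (Fin m → ℝ) → Fin m → ℝ := fun y k => q (e k) (x₀ + R y) (x₀ + R y)
  have hf : ApproximatesLinearOn f (ContinuousLinearEquiv.refl ℝ (Fin m → ℝ) : _ →L[ℝ] _)
      (Metric.closedBall 0 r) (1 / 2) := fun y hy y' hy' => by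
    have h2 := near hM hρ h1 hr hρ0 hr0 (x := R ((1 / 2 : ℝ) • (y + y'))) (fun i => by
      refine (hρ _ i).trans (mul_le_mul_of_nonneg_left ?_ hρ0)
      rw [norm_smul]
      have := norm_add_le y y'
      simp at hy hy' ⊢
      linarith) (y - y')
    have h3 : f y - f y' = lin e (x₀ + R ((1 / 2 : ℝ) • (y + y'))) (R (y - y')) := by
      ext k
      simp [f, lin, q_symm (e k) (R y) x₀, q_symm (e k) (R y') x₀, q_symm (e k) (R y') (R y)]
      ring
    rw [h3]
    simpa using h2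
  obtain ⟨y, hy, h⟩ := hf.surjOn_closedBall_of_nonlinearRightInverse
    ⟨id, 1, fun _ => by simp, fun _ => rfl⟩ hr0 subset_rfl (a := c) (by
      rw [mem_closedBall_iff_norm', pi_norm_le_iff_of_nonneg (by norm_num; positivity)]
      intro k
      have := hc k
      norm_num [f]
      linarith)
  exact ⟨y, by simpa using hy, congrFun h⟩

end Newton

/-- The linear map with the given columns. -/
def cols (m : ℕ) (cs : List (List ℤ)) (D : ℝ) : (Fin m → ℝ) →ₗ[ℝ] ℕ → ℝ :=
  ∑ j : Fin m, (LinearMap.proj j).smulRight (D⁻¹ • fn (cs.getD j []))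

lemma cols_apply (m : ℕ) (cs : List (List ℤ)) (D : ℝ) (y : Fin m → ℝ) :
    cols m cs D y = ∑ j, y j • D⁻¹ • fn (cs.getD j []) := by simp [cols]

lemma fn_le {cs : List (List ℤ)} {K : ℤ} (hK : 0 ≤ K)
    (h : cs.all fun c => c.all fun a => |a| ≤ K) (j i : ℕ) : |fn (cs.getD j []) i| ≤ K := by
  have hK' : (0 : ℝ) ≤ K := by exact_mod_cast hK
  simp only [List.all_eq_true, decide_eq_true_eq] at h
  rw [fn]
  rcases lt_or_ge (j : ℕ) cs.length with hj | hj
  · rcases lt_or_ge i (cs.getD j []).length with hi | hi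
    · rw [List.getD_eq_getElem _ _ hi]
      exact_mod_cast h _ (by simp [hj]) _ (List.getElem_mem hi)
    · rw [List.getD_eq_default _ _ hi]; simpa
  · rw [List.getD_eq_default _ _ hj]; simpa

lemma cols_le (m : ℕ) {cs : List (List ℤ)} {D K : ℤ} (hD : 0 < D) (hK : 0 ≤ K)
    (h : cs.all fun c => c.all fun a => |a| ≤ K * D) (y : Fin m → ℝ) (i : ℕ) :
    |cols m cs D y i| ≤ m * K * ‖y‖ := by
  have hD' : (0 : ℝ) < D := by exact_mod_cast hD
  have hK' : (0 : ℝ) ≤ K := by exact_mod_cast hK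
  rw [cols_apply, Finset.sum_apply]
  refine (abs_sum_le_sum_abs _ _).trans ((sum_le_card_nsmul _ _ (K * ‖y‖) fun j _ => ?_).trans
    (by simp [mul_assoc]))
  have h1 : |fn (cs.getD j []) i| ≤ K * D := by exact_mod_cast fn_le (by positivity) h j i
  simp only [Pi.smul_apply, smul_eq_mul, abs_mul, abs_inv, abs_of_pos hD']
  rw [mul_comm]
  gcongr
  · rwa [inv_mul_le_iff₀ hD', mul_comm]
  · exact norm_le_pi_norm y j

lemma lin_cols {m : ℕ} {es : ℕ → List Tm} {A : List ℤ} {cs : List (List ℤ)} {B D D' : ℝ}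
    (hB : D * D' = 2 * B) (hD : 0 < D) (hD' : 0 < D') (h : ∀ k < m,
      4 * ∑ j ∈ range m, |q (es k) (fn A) (fn (cs.getD j [])) - if j = k then B else 0| ≤ B)
    (y : Fin m → ℝ) :
    ‖lin (fun k : Fin m => es k) (D⁻¹ • fn A) (cols m cs D' y) - y‖ ≤ 1 / 4 * ‖y‖ := by
  refine (pi_norm_le_iff_of_nonneg (by positivity)).2 fun k => ?_
  have hB0 : (0 : ℝ) < B := by nlinarith [mul_pos hD hD']
  let a : Fin m → ℝ := fun j => q (es k) (fn A) (fn (cs.getD j [])) - if j = k then B else 0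
  have h2 : 4 * ∑ j, |a j| ≤ B := by
    have := h k k.2
    rw [← Fin.sum_univ_eq_sum_range] at this
    simpa [a, Fin.ext_iff] using this
  have h3 : (lin (fun k : Fin m => es k) (D⁻¹ • fn A) (cols m cs D' y) - y) k =
      ∑ j, y j * a j / B := by
    have e : ∀ z : ℝ, 2 * (D'⁻¹ * (D⁻¹ * z)) = z / B := fun z => by
      field_simp; linear_combination (-z) * hB
    simp only [lin, cols_apply, map_sum, map_smul, Pi.sub_apply, Finset.sum_apply, Pi.smul_apply,
      LinearMap.pi_apply, LinearMap.smul_apply, smul_eq_mul, a, mul_sub, sub_div,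
      sum_sub_distrib, mul_ite, mul_zero, ite_div, zero_div, sum_ite_eq', mem_univ, if_true]
    congr 1
    · exact sum_congr rfl fun j _ => by rw [mul_div_assoc, ← e]; ring
    · field_simp
  rw [h3, Real.norm_eq_abs]
  refine (abs_sum_le_sum_abs _ _).trans ((sum_le_sum (g := fun j => ‖y‖ / B * |a j|)
    fun j _ => ?_).trans ?_)
  · rw [abs_div, abs_mul, abs_of_pos hB0, div_mul_eq_mul_div]
    gcongr
    exact norm_le_pi_norm y j
  · rw [← mul_sum, div_mul_eq_mul_div, div_le_iff₀ hB0]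
    nlinarith [norm_nonneg y]

end Pool.Agent.MP_649b0b_mp.H34
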